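import Pool.Agent.H424.RB.Asm

/-!
# MP_5a4862_nt: the number of large values of `n / φ(n)` and zero-free half-planes

Since `limsup n / (φ(n) log log n) = e^γ` (Landau), one may ask how many integers `n ≤ N` there are with
`n / φ(n) ≥ e^γ log log n` (by Nicolas there are infinitely many).  We show: their number is at most
`exp (log N / (log log N) ^ A)` for all large `N`, for every `A`; for `0 < θ < 1` it is at most
`exp ((log N) ^ ((1 + θ) / 2 + ε))` for every `ε > 0` and all large `N` if and only if zeta has no zeros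
with real part greater than `θ`; in particular it is at most `exp ((log N) ^ (1 - δ))` for some `δ > 0` and
all large `N` if and only if zeta has a zero-free half-plane `Re s ≥ σ₀` with `1/2 < σ₀ < 1`; and it is
greater than `exp ((log N) ^ (3 / 4 - ε))` for arbitrarily large `N`.
-/

set_option autoImplicit false

namespace Pool.Agent.Results.MP_5a4862_nt.EulerExceptions

open Filter

open Classical in
/-- the number of the `n ≤ N` with `n / φ(n) ≥ e^γ log log n` -/
noncomputable def count (N : ℕ) : ℕ :=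
  ((Finset.Icc 1 N).filter fun n : ℕ =>
    Real.exp Real.eulerMascheroniConstant * Real.log (Real.log n) * (Nat.totient n : ℝ) ≤ n).card

/-- For every `ε > 0` we have `count N ≤ exp ((log N) ^ (κ + ε))` for all large `N`. -/
def Few (κ : ℝ) : Prop := ∀ ε : ℝ, 0 < ε → ∀ᶠ N : ℕ in atTop,
  (count N : ℝ) ≤ Real.exp (Real.log N ^ (κ + ε))

theorem result :
    (∀ A : ℕ, ∀ᶠ N : ℕ in atTop, (count N : ℝ) ≤ Real.exp (Real.log N / Real.log (Real.log N) ^ A)) ∧
    (∀ θ : ℝ, 0 < θ → θ < 1 → ((∀ s : ℂ, θ < s.re → riemannZeta s ≠ 0) ↔ Few ((1 + θ) / 2))) ∧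
    ((∃ σ₀ : ℝ, 1 / 2 < σ₀ ∧ σ₀ < 1 ∧ ∀ s : ℂ, σ₀ ≤ s.re → riemannZeta s ≠ 0) ↔
      ∃ δ : ℝ, 0 < δ ∧ ∀ᶠ N : ℕ in atTop, (count N : ℝ) ≤ Real.exp (Real.log N ^ (1 - δ))) ∧
    (RiemannHypothesis ↔ Few (3 / 4)) ∧
    (∀ ε : ℝ, 0 < ε → ∃ᶠ N : ℕ in atTop, Real.exp (Real.log N ^ (3 / 4 - ε)) < count N) := by
  have t1 : Tendsto (fun N : ℕ => Real.log (N : ℝ)) atTop atTop :=
    Real.tendsto_log_atTop.comp tendsto_natCast_atTop_atTop
  have main : ∀ θ : ℝ, 0 < θ → θ < 1 → ((∀ s : ℂ, θ < s.re → riemannZeta s ≠ 0) ↔ Few ((1 + θ) / 2)) :=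
    fun θ h0 h1 => Pool.Agent.H424.RB.euler_iff h0 h1
  refine ⟨Pool.Agent.H424.RB.few_uncond, main, ⟨?_, ?_⟩, ?_, ?_⟩
  · rintro ⟨σ₀, h0, h1, hz⟩
    refine ⟨(1 - σ₀) / 4, by linarith, ?_⟩
    have := (main σ₀ (by linarith) h1).1 (fun s hs => hz s hs.le) ((1 - σ₀) / 4) (by linarith)
    have e : (1 + σ₀) / 2 + (1 - σ₀) / 4 = 1 - (1 - σ₀) / 4 := by ring
    rwa [e] at this
  · rintro ⟨δ, hδ, hE⟩
    set δ' : ℝ := min δ (1 / 8) with hδ'
    have h0 : 0 < δ' := by rw [hδ', lt_min_iff]; constructor <;> linarith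
    have h1 : δ' ≤ δ := min_le_left _ _
    have h2 : δ' ≤ 1 / 8 := min_le_right _ _
    refine ⟨1 - δ', by linarith, by linarith, fun s hs => ?_⟩
    refine (main (1 - 2 * δ') (by linarith) (by linarith)).2 (fun ε hε => ?_) s (by linarith)
    filter_upwards [hE, t1.eventually_ge_atTop 1] with N hN h3
    refine hN.trans (Real.exp_le_exp.2 (Real.rpow_le_rpow_of_exponent_le h3 ?_))
    linarith
  · rw [Pool.Agent.W190.rh_free, main (1 / 2) (by norm_num) (by norm_num)]
    have : ((1 : ℝ) + 1 / 2) / 2 = 3 / 4 := by norm_num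
    rw [this]
  · intro ε hε
    by_contra hcon
    rw [not_frequently] at hcon
    set ε' : ℝ := min ε (1 / 8) with hε'
    have h0 : 0 < ε' := by rw [hε', lt_min_iff]; constructor <;> linarith
    have h1 : ε' ≤ ε := min_le_left _ _
    have h2 : ε' ≤ 1 / 8 := min_le_right _ _
    have hz : ∀ s : ℂ, 1 / 2 - 2 * ε' < s.re → riemannZeta s ≠ 0 := by
      refine (main (1 / 2 - 2 * ε') (by linarith) (by linarith)).2 fun η hη => ?_
      filter_upwards [hcon, t1.eventually_ge_atTop 1] with N hN h3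
      refine (not_lt.1 hN).trans (Real.exp_le_exp.2 (Real.rpow_le_rpow_of_exponent_le h3 ?_))
      linarith
    have : 1 / 2 ≤ 1 / 2 - 2 * ε' := by
      refine Pool.Agent.H295R2.T2 fun s hs => ?_
      by_cases h : s = 1
      · rw [h, Pool.Agent.H295R2.Zs, riemannZeta₁_one]
        exact one_ne_zero
      · rw [← Pool.Agent.H295R2.Zs_eq h]
        exact mul_ne_zero (sub_ne_zero.2 h) (hz s hs)
    linarith

end Pool.Agent.Results.MP_5a4862_nt.EulerExceptions
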