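import Pool.Agent.H514.Li.Fin

/-!
# Li coefficients of the high derivatives of Riemann's `ξ`, and the constant 8

By Li's criterion the Riemann hypothesis holds if and only if all Li coefficients `λ_k(ξ)` are
non-negative, and all zeros of the `n`-th derivative `ξ^(n)` are on the critical line if and only if
all `λ_k(ξ^(n))` are. Here: for every `κ < 8` the coefficients `λ_k(ξ^(n))` are positive for all large
`n` and all `1 ≤ k ≤ e ^ (κ n)`, with a lower bound `c k² log (k + n) / (k + n)`; and the constant `8`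
can be improved if and only if zeta has a zero-free half-plane `Re s > θ` with `θ < 1`.
-/

set_option autoImplicit false

namespace Pool.Agent.Results.MP_5a4862_nt.LiCoefficientsOfDerivatives

open Complex

/-- Riemann's entire function `ξ(s) = (s(s-1)/2) π^(-s/2) Γ(s/2) ζ(s)`, written through the entire
part `completedRiemannZeta₀` of the completed zeta function, to which
`completedRiemannZeta s = completedRiemannZeta₀ s - 1/s - 1/(1-s)` is related. -/
noncomputable def xi (s : ℂ) : ℂ := s * (s - 1) / 2 * completedRiemannZeta₀ s + 1 / 2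

/-- The contribution `m(ρ) Re (1 - (1 - 1/ρ)^k)` of a zero `ρ` of `f`, of multiplicity `m(ρ)`, to
the `k`-th Li coefficient of `f`. -/
noncomputable def liTerm (f : ℂ → ℂ) (k : ℕ) (ρ : ℂ) : ℝ :=
  (analyticOrderNatAt f ρ : ℝ) * (1 - (1 - 1 / ρ) ^ k).re

/-- The `k`-th Li coefficient `λ_k(f)`: the sum of `liTerm f k` over the distinct zeros of `f`. -/
noncomputable def li (f : ℂ → ℂ) (k : ℕ) : ℝ := ∑' ρ : {ρ : ℂ // f ρ = 0}, liTerm f k ρ

/-- (1) There is an absolute constant `c > 0` such that, whenever `ζ` has no zero with `Re s > θ`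
(`1/2 ≤ θ ≤ 1`; for `θ = 1` this is no hypothesis) and `κ (θ - 1/2) < 4`, for all large `n` and
all `1 ≤ k ≤ e ^ (κ n)` the series for `λ_k(ξ^(n))` converges absolutely and
`λ_k(ξ^(n)) ≥ c k² log (k + n) / (k + n)`.
(2) For some `κ > 8` the coefficients `λ_k(ξ^(n))` with `1 ≤ k ≤ e ^ (κ n)` are non-negative for all
large `n` if and only if `ζ` has a zero-free half-plane `Re s > θ` with `θ < 1`. -/
theorem result :
    (∃ c : ℝ, 0 < c ∧ ∀ θ : ℝ, 1 / 2 ≤ θ → θ ≤ 1 → (∀ s : ℂ, θ < s.re → riemannZeta s ≠ 0) →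
      ∀ κ : ℝ, κ * (θ - 1 / 2) < 4 → ∃ N : ℕ, ∀ n : ℕ, N ≤ n →
      ∀ k : ℕ, 1 ≤ k → (k : ℝ) ≤ Real.exp (κ * n) →
      (Summable fun ρ : {ρ : ℂ // iteratedDeriv n xi ρ = 0} =>
        liTerm (iteratedDeriv n xi) k ρ) ∧
      c * (k : ℝ) ^ 2 * Real.log ((k : ℝ) + n) / ((k : ℝ) + n) ≤ li (iteratedDeriv n xi) k) ∧
    ((∃ κ : ℝ, 8 < κ ∧ ∃ N : ℕ, ∀ n : ℕ, N ≤ n → ∀ k : ℕ, 1 ≤ k →
      (k : ℝ) ≤ Real.exp (κ * n) → 0 ≤ li (iteratedDeriv n xi) k) ↔
      ∃ θ : ℝ, θ < 1 ∧ ∀ s : ℂ, θ < s.re → riemannZeta s ≠ 0) :=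
  Pool.Agent.H514.Li.final2

end Pool.Agent.Results.MP_5a4862_nt.LiCoefficientsOfDerivatives
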