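import Pool.Agent.H424.RB.Crit

/-!
# MP_5a4862_nt: zero-free half-planes and Mertens' product at almost all primes

For a prime `p` let `ratio p = N / (e^γ φ(N) log log N)`, `N` the product of the primes `≤ p`; it tends to `1` by
Mertens' theorem.  Zeta has a zero-free half-plane `Re s ≥ σ₀` with `σ₀ < 1` if and only if for some `δ > 0` the
inequality `ratio p ≥ 1 - p ^ (-δ)` holds for all but at most `X ^ (1 - δ)` of the primes `p ≤ X` (all large `X`), and
also if and only if `ratio p ≤ 1 + p ^ (-δ)` does.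
-/

set_option autoImplicit false

namespace Pool.Agent.Results.MP_5a4862_nt.PrimorialExceptions

open Filter

/-- `N / (e^γ φ(N) log log N)`, where `N` is the product of the primes `≤ p` -/
noncomputable def ratio (p : ℕ) : ℝ :=
  (primorial p : ℝ) / (Real.exp Real.eulerMascheroniConstant * (Nat.totient (primorial p) : ℝ) *
    Real.log (Real.log (primorial p)))

open Classical in
/-- the number of the primes `p ≤ X` with `P p` -/
noncomputable def primeCount (P : ℕ → Prop) (X : ℕ) : ℕ :=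
  ((Finset.Icc 1 X).filter fun p : ℕ => p.Prime ∧ P p).card

theorem result :
    ((∃ σ₀ : ℝ, 1 / 2 < σ₀ ∧ σ₀ < 1 ∧ ∀ s : ℂ, σ₀ ≤ s.re → riemannZeta s ≠ 0) ↔
      ∃ δ : ℝ, 0 < δ ∧ ∀ᶠ X : ℕ in atTop,
        (primeCount (fun p => ratio p < 1 - (p : ℝ) ^ (-δ)) X : ℝ) ≤ (X : ℝ) ^ (1 - δ)) ∧
    ((∃ σ₀ : ℝ, 1 / 2 < σ₀ ∧ σ₀ < 1 ∧ ∀ s : ℂ, σ₀ ≤ s.re → riemannZeta s ≠ 0) ↔
      ∃ δ : ℝ, 0 < δ ∧ ∀ᶠ X : ℕ in atTop,
        (primeCount (fun p => 1 + (p : ℝ) ^ (-δ) < ratio p) X : ℝ) ≤ (X : ℝ) ^ (1 - δ)) := by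
  have e : ∀ (P : ℕ → Prop) (X : ℕ), primeCount P X =
      Pool.Agent.H424.RB.primeCount (fun t : ℝ => P ⌊t⌋₊) X := by
    intro P X
    classical
    unfold primeCount Pool.Agent.H424.RB.primeCount
    congr 1
    refine Finset.filter_congr fun p _ => ?_
    beta_reduce
    rw [Nat.floor_natCast]
  have e2 : ∀ (P : ℕ → ℝ → Prop) (X : ℕ), Pool.Agent.H424.RB.primeCount (fun t : ℝ => P ⌊t⌋₊ t) X =
      Pool.Agent.H424.RB.primeCount (fun t : ℝ => P ⌊t⌋₊ (⌊t⌋₊ : ℝ)) X := by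
    intro P X
    classical
    unfold Pool.Agent.H424.RB.primeCount
    congr 1
    refine Finset.filter_congr fun p _ => ?_
    beta_reduce
    rw [Nat.floor_natCast]
  have h : (∃ σ₀ : ℝ, 1 / 2 < σ₀ ∧ σ₀ < 1 ∧ ∀ s : ℂ, σ₀ ≤ s.re → riemannZeta s ≠ 0) ↔
      ∃ σ : ℝ, σ < 1 ∧ ∀ s : ℂ, σ < s.re → riemannZeta s ≠ 0 := by
    constructor
    · rintro ⟨σ, _, h1, h2⟩
      exact ⟨σ, h1, fun s hs => h2 s hs.le⟩
    · rintro ⟨σ, h1, h2⟩
      refine ⟨(max σ (1 / 2) + 1) / 2, ?_, ?_, fun s hs => h2 s ?_⟩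
      · have : (1 : ℝ) / 2 ≤ max σ (1 / 2) := le_max_right _ _
        linarith
      · have : max σ (1 / 2) < 1 := max_lt h1 (by norm_num)
        linarith
      · have h3 : max σ (1 / 2) < 1 := max_lt h1 (by norm_num)
        have h4 : σ ≤ max σ (1 / 2) := le_max_left _ _
        linarith
  refine ⟨?_, ?_⟩
  · rw [h, Pool.Agent.H424.RB.nicolas_half_below]
    refine exists_congr fun δ => and_congr_right fun _ => ?_
    refine eventually_congr (Eventually.of_forall fun X => ?_)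
    rw [e, e2 (fun p t => Pool.Agent.H424.RB.ratio p < 1 - t ^ (-δ))]
    rfl
  · rw [h, Pool.Agent.H424.RB.nicolas_half_above]
    refine exists_congr fun δ => and_congr_right fun _ => ?_
    refine eventually_congr (Eventually.of_forall fun X => ?_)
    rw [e, e2 (fun p t => 1 + t ^ (-δ) < Pool.Agent.H424.RB.ratio p)]
    rfl

end Pool.Agent.Results.MP_5a4862_nt.PrimorialExceptions
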