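import Pool.Agent.Hp428.NL.Fin

set_option autoImplicit false

/-!
# MP_5a4862_nt: zero-free half-planes of zeta and the zeros of `ξ(s + b) ± ξ(s - b)`

For `b > 0` and real `θ` let `A_{θ,b}(s) = e^{iθ} ξ(s + b) + e^{-iθ} ξ(s - b)`; `A_{0,b}` is the sum and
`-i A_{π/2,b}` the difference of two shifts of `ξ`.  If `ζ(s) ≠ 0` for `Re s > 1/2 + b`, then all zeros of all
`A_{θ,b}` are on the critical line (this is the classical Hermite-Biehler situation), and the converse holds when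
all phases `θ` are taken together, or when the zeros of the sum and of the difference interlace.  We show that two
phases suffice, without any condition of interlacing.  Fix `θ₁ ≠ θ₂` modulo `π` (for example the sum and the
difference).

* For `0 < b < 1/2`: the zeros of zeta satisfy `limsup Re ρ ≤ 1/2 + b` (as `|Im ρ| → ∞`) if and only if the zeros of
  `A_{θ₁,b}` and the zeros of `A_{θ₂,b}` approach the critical line.
* If `limsup Re ρ ≤ 1/2 + b₀` and `b₀ < b < 1/2`, then for every phase all but finitely many zeros of `A_{θ,b}` are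
  simple and on the critical line.
* So there is a zero-free half-plane `Re s ≥ σ₀` with `σ₀ < 1` if and only if for some `b < 1/2` all but finitely
  many zeros of `A_{θ₁,b}` and of `A_{θ₂,b}` are simple and on the critical line.

Proof.  When the zeros of the two sums approach the line, the three circles theorem bounds both of them near every
height, hence `ξ(s + b)` itself (`2 i sin(θ₁ - θ₂) ξ(s + b) = e^{-iθ₂} A_{θ₁,b}(s) - e^{-iθ₁} A_{θ₂,b}(s)`): this is
the bound `ζ(1/2 + b + it) = O(t^ε)`.  Since `A_{θ₁,b}` has no zeros to the right of the line, Harnack's inequality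
shows that it is as large as possible there; but at `s = ρ - b` it equals `e^{-iθ₁} ξ(ρ - 2b)`, which by the bound
for zeta just obtained is much smaller if `Re ρ > 1/2 + b + δ`.
-/

namespace Pool.Agent.Results.MP_5a4862_nt.SumAndDifferenceOfShifts

open Complex

/-- `s (s - 1) π^(-s/2) Γ(s/2) ζ(s)`, twice the Riemann xi function, as an entire function. -/
noncomputable def xi (s : ℂ) : ℂ := s * (s - 1) * completedRiemannZeta₀ s + 1

/-- The sum of two shifts `e^{iθ} ξ(s + b) + e^{-iθ} ξ(s - b)`. -/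
noncomputable def A (θ b : ℝ) (s : ℂ) : ℂ :=
  exp (θ * I) * xi (s + b) + exp (-(θ * I)) * xi (s - b)

/-- `limsup Re ρ ≤ 1/2 + b` for the zeros `ρ` of zeta: for every `δ > 0` the zeros `s` of zeta with `|Im s|` large have
real part at most `1/2 + b + δ`. -/
def ZerosLeftOf (b : ℝ) : Prop :=
  ∀ δ : ℝ, 0 < δ → ∃ T0 : ℝ, ∀ s : ℂ, riemannZeta s = 0 → T0 ≤ |s.im| → s.re ≤ 1 / 2 + b + δ

/-- The zeros of `A_{θ,b}` approach the critical line: for every `δ > 0` those with `|Im s|` large have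
`|Re s - 1/2| ≤ δ`. -/
def NearLine (θ b : ℝ) : Prop :=
  ∀ δ : ℝ, 0 < δ → ∃ T0 : ℝ, ∀ s : ℂ, A θ b s = 0 → T0 ≤ |s.im| → |s.re - 1 / 2| ≤ δ

/-- All but finitely many zeros of `A_{θ,b}` are simple and on the critical line. -/
def AlmostAllOnLine (θ b : ℝ) : Prop :=
  {s : ℂ | A θ b s = 0 ∧ ¬(s.re = 1 / 2 ∧ deriv (A θ b) s ≠ 0)}.Finite

open Pool.Agent.Hp428.LS
open Pool.Agent.Hp428.NL
open Pool.Agent.H24R2.JP (XX)
open scoped ComplexConjugate

lemma xi_XX (s : ℂ) : xi s = XX (s - 1 / 2) * (1 / 4) := by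
  unfold xi XX
  have e : 1 / 2 + (s - 1 / 2) = s := by ring
  rw [e]
  ring

lemma A_YY (θ b : ℝ) (s : ℂ) : A θ b s = YY θ b (s - 1 / 2) * (1 / 4) := by
  unfold A YY
  rw [xi_XX, xi_XX]
  have e1 : s + (b : ℂ) - 1 / 2 = s - 1 / 2 + b := by ring
  have e2 : s - (b : ℂ) - 1 / 2 = s - 1 / 2 - b := by ring
  rw [e1, e2]
  ring

lemma A_zero (θ b : ℝ) (s : ℂ) : A θ b s = 0 ↔ YY θ b (s - 1 / 2) = 0 := by
  rw [A_YY]
  constructor
  · intro h
    rcases mul_eq_zero.1 h with h | h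
    · exact h
    · norm_num at h
  · intro h
    rw [h, zero_mul]

lemma A_deriv (θ b : ℝ) (s : ℂ) : deriv (A θ b) s = deriv (YY θ b) (s - 1 / 2) * (1 / 4) := by
  have h1 : HasDerivAt (fun w : ℂ => YY θ b (w - 1 / 2)) (deriv (YY θ b) (s - 1 / 2)) s :=
    (YY_diff θ b (s - 1 / 2)).hasDerivAt.comp_sub_const s (1 / 2)
  have h2 := (h1.mul_const (1 / 4 : ℂ)).deriv
  rw [← h2]
  congr 1
  funext w
  exact A_YY θ b w

/-- the zeros of zeta on the right of `Re s = 0` are the zeros of `XX` -/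
lemma zeta_XX {s : ℂ} (hs : 0 < s.re) : riemannZeta s = 0 ↔ XX (s - 1 / 2) = 0 := by
  have hs0 : s ≠ 0 := by
    intro h
    rw [h] at hs
    simp at hs
  by_cases hs1 : s = 1
  · rw [hs1]
    constructor
    · intro h
      exact absurd h (riemannZeta_ne_zero_of_one_le_re (by simp))
    · intro h
      exfalso
      unfold XX at h
      norm_num at h
  · have hs1' : 1 - s ≠ 0 := fun h => hs1 (by linear_combination -h)
    have hG : Gammaℝ s ≠ 0 := Gammaℝ_ne_zero_of_re_pos hs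
    have h1 : XX (s - 1 / 2) = -4 * s * (1 - s) * (riemannZeta s * Gammaℝ s) := by
      rw [riemannZeta_def_of_ne_zero hs0, div_mul_cancel₀ _ hG, completedRiemannZeta_eq]
      unfold XX
      have e : 1 / 2 + (s - 1 / 2) = s := by ring
      rw [e]
      field_simp
      ring
    rw [h1]
    constructor
    · intro h
      rw [h]
      ring
    · intro h
      rcases mul_eq_zero.1 h with h | h
      · exfalso
        rcases mul_eq_zero.1 h with h | h
        · rcases mul_eq_zero.1 h with h | h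
          · norm_num at h
          · exact hs0 h
        · exact hs1' h
      · rcases mul_eq_zero.1 h with h | h
        · exact h
        · exact absurd h hG

lemma XX_c (z : ℂ) : XX (conj z) = conj (XX z) := Pool.Agent.H24R2.JP.B1h.XX_conj z

lemma YY_c (θ b : ℝ) (z : ℂ) : YY θ b (conj z) = conj (YY (-θ) b z) := by
  unfold YY
  have e1 : conj z + (b : ℂ) = conj (z + b) := by rw [map_add, conj_ofReal]
  have e2 : conj z - (b : ℂ) = conj (z - b) := by rw [map_sub, conj_ofReal]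
  rw [e1, e2, XX_c, XX_c, map_add, map_mul, map_mul, ← exp_conj, ← exp_conj]
  have e3 : conj (((-θ : ℝ) : ℂ) * I) = θ * I := by
    rw [map_mul, conj_ofReal, conj_I]; push_cast; ring
  have e4 : conj (-(((-θ : ℝ) : ℂ) * I)) = -(θ * I) := by
    rw [map_neg, e3]
  rw [e3, e4]

lemma YY_cd (θ b : ℝ) (z : ℂ) : deriv (YY θ b) (conj z) = conj (deriv (YY (-θ) b) z) := by
  have h1 := ((YY_diff (-θ) b z).hasDerivAt).conj_conj
  have h2 : (conj ∘ YY (-θ) b ∘ conj) = YY θ b := by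
    funext w
    simp only [Function.comp]
    rw [← YY_c, conj_conj]
  rw [h2] at h1
  exact h1.deriv

lemma sz_iff' {b : ℝ} (hb : 0 < b) : ZerosLeftOf b ↔ SZ b := by
  constructor
  · intro h δ hδ
    obtain ⟨T0, h0⟩ := h δ hδ
    refine ⟨T0, fun z hz hT => ?_⟩
    by_contra hcon
    push Not at hcon
    have e : z + 1 / 2 - 1 / 2 = z := by ring
    have h1 := h0 (z + 1 / 2) ((zeta_XX (by simp; linarith)).2 (by rw [e]; exact hz)) (by
      have : (z + 1 / 2).im = z.im := by simp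
      rw [this]
      exact hT.trans (le_abs_self _))
    have e2 : (z + 1 / 2).re = z.re + 1 / 2 := by simp
    rw [e2] at h1
    linarith
  · intro h δ hδ
    obtain ⟨T0, h0⟩ := h δ hδ
    refine ⟨T0, fun s hs hT => ?_⟩
    by_contra hcon
    push Not at hcon
    have hX := (zeta_XX (by linarith)).1 hs
    rcases le_total 0 s.im with h1 | h1
    · rw [abs_of_nonneg h1] at hT
      have := h0 _ hX (by simpa using hT)
      have e2 : (s - 1 / 2).re = s.re - 1 / 2 := by simp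
      rw [e2] at this
      linarith
    · rw [abs_of_nonpos h1] at hT
      have := h0 (conj (s - 1 / 2)) (by rw [XX_c, hX, map_zero]) (by simpa using hT)
      have e2 : (conj (s - 1 / 2)).re = s.re - 1 / 2 := by simp
      rw [e2] at this
      linarith

/-- both signs of the height -/
lemma both {b : ℝ} {Q : ℝ → ℂ → Prop} (hQ : ∀ θ z, Q (-θ) (conj z) → Q θ z) {T0 : ℝ}
    (h : ∀ (θ : ℝ) (z : ℂ), YY θ b z = 0 → T0 ≤ z.im → Q θ z) (θ : ℝ) (s : ℂ) (hs : A θ b s = 0)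
    (hT : T0 ≤ |s.im|) : Q θ (s - 1 / 2) := by
  rw [A_zero] at hs
  rcases le_total 0 s.im with h1 | h1
  · rw [abs_of_nonneg h1] at hT
    exact h θ _ hs (by simpa using hT)
  · rw [abs_of_nonpos h1] at hT
    apply hQ
    refine h (-θ) _ ?_ (by simpa using hT)
    rw [YY_c, neg_neg, hs, map_zero]

lemma near_of_sz {b : ℝ} (hb : 0 < b) (hb1 : b < 1 / 2) (h : SZ b) (θ : ℝ) : NearLine θ b := by
  intro δ hδ
  obtain ⟨T0, h0⟩ := ny_of_sz hb hb1 h δ hδ
  refine ⟨T0, fun s hs hT => ?_⟩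
  have := both (b := b) (Q := fun _ z => |z.re| ≤ δ) (fun _ z hz => by simpa using hz) h0 θ s hs hT
  simpa using this

lemma ny_of_near {θ b : ℝ} (h : NearLine θ b) : NY θ b := by
  intro δ hδ
  obtain ⟨T0, h0⟩ := h δ hδ
  refine ⟨T0, fun z hz hT => ?_⟩
  have e : z + 1 / 2 - 1 / 2 = z := by ring
  have h1 := h0 (z + 1 / 2) (by rw [A_zero, e]; exact hz) (by
    have : (z + 1 / 2).im = z.im := by simp
    rw [this]
    exact hT.trans (le_abs_self _))
  simpa using h1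

theorem near_iff {θ₁ θ₂ b : ℝ} (hs : Real.sin (θ₁ - θ₂) ≠ 0) (hb : 0 < b) (hb1 : b < 1 / 2) :
    ZerosLeftOf b ↔ NearLine θ₁ b ∧ NearLine θ₂ b := by
  rw [sz_iff' hb]
  constructor
  · intro h
    exact ⟨near_of_sz hb hb1 h θ₁, near_of_sz hb hb1 h θ₂⟩
  · rintro ⟨h1, h2⟩
    exact (sz_iff hs hb hb1).2 ⟨ny_of_near h1, ny_of_near h2⟩

lemma near_of_all {θ b : ℝ} (h : AlmostAllOnLine θ b) : NearLine θ b := by
  intro δ hδ
  obtain ⟨B, hB⟩ := (h.image fun s : ℂ => |s.im|).bddAbove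
  refine ⟨B + 1, fun s hs hT => ?_⟩
  by_contra hcon
  push Not at hcon
  have h1 : s ∈ {s : ℂ | A θ b s = 0 ∧ ¬(s.re = 1 / 2 ∧ deriv (A θ b) s ≠ 0)} := by
    refine ⟨hs, fun h2 => ?_⟩
    rw [h2.1, sub_self, abs_zero] at hcon
    linarith
  have h2 := hB ⟨s, h1, rfl⟩
  simp only at h2
  linarith

lemma all_of_sz {b₀ b : ℝ} (hb0 : 0 ≤ b₀) (hb : b₀ < b) (hb1 : b < 1 / 2) (h : SZ b₀) (θ : ℝ) :
    AlmostAllOnLine θ b := by
  obtain ⟨T0, h0⟩ := fin_of_sz hb0 hb hb1 h
  have hbp : 0 < b := by linarith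
  -- the zeros of bounded height
  have hK : IsCompact {z : ℂ | z ∈ Set.Icc (-(1 / 2) : ℝ) (1 / 2) ×ℂ Set.Icc (-|T0|) |T0|} :=
    isCompact_Icc.reProdIm isCompact_Icc
  have hf := Pool.Agent.W186.LH.zfin (YY_diff θ b) (YY_ne θ hbp) hK
  refine (hf.image fun z : ℂ => z + 1 / 2).subset ?_
  rintro s ⟨hs, hn⟩
  refine ⟨s - 1 / 2, ⟨?_, (A_zero θ b s).1 hs⟩, by ring⟩
  have h1 := YY_strip θ b hbp _ ((A_zero θ b s).1 hs)
  rw [abs_le] at h1
  refine ⟨⟨h1.1, h1.2⟩, ?_⟩
  have him : (s - 1 / 2 : ℂ).im = s.im := by simp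
  change (s - 1 / 2 : ℂ).im ∈ Set.Icc (-|T0|) |T0|
  rw [him, Set.mem_Icc, ← abs_le]
  by_contra hcon
  push Not at hcon
  apply hn
  have h2 := both (b := b) (Q := fun θ z => z.re = 0 ∧ deriv (YY θ b) z ≠ 0) (fun θ z hz => by
    refine ⟨by simpa using hz.1, ?_⟩
    have := hz.2
    rw [YY_cd, neg_neg] at this
    exact (map_ne_zero _).1 this) h0 θ s hs ((le_abs_self T0).trans hcon.le)
  refine ⟨?_, ?_⟩
  · have h3 := h2.1
    have e2 : (s - 1 / 2 : ℂ).re = s.re - 1 / 2 := by simp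
    rw [e2] at h3
    linarith
  · rw [A_deriv]
    exact mul_ne_zero h2.2 (by norm_num)

/-- from `SZ b` to a zero-free half-plane -/
lemma half_of_sz {b : ℝ} (hb : 0 < b) (hb1 : b < 1 / 2) (h : SZ b) :
    ∃ σ₀ : ℝ, 1 / 2 < σ₀ ∧ σ₀ < 1 ∧ ∀ s : ℂ, σ₀ ≤ s.re → riemannZeta s ≠ 0 := by
  obtain ⟨T0, h0⟩ := h ((1 / 2 - b) / 2) (by linarith)
  obtain ⟨K, hKd⟩ : ∃ K : Set ℂ, K = {z : ℂ | z ∈ Set.Icc (0 : ℝ) (1 / 2) ×ℂ Set.Icc (-|T0|) |T0|} ∩
      {z : ℂ | XX z = 0} := ⟨_, rfl⟩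
  have hXd : Differentiable ℂ XX := Pool.Agent.H24R2.JP.B1h.XX_diff
  have hK : IsCompact K := by
    rw [hKd]
    exact (isCompact_Icc.reProdIm isCompact_Icc).inter_right (isClosed_eq hXd.continuous continuous_const)
  have hlt : ∀ z ∈ K, z.re < 1 / 2 := by
    intro z hz
    rw [hKd] at hz
    obtain ⟨hz1, hz2⟩ := hz
    have hz3 : z.re ≤ 1 / 2 := hz1.1.2
    refine lt_of_le_of_ne hz3 fun he => ?_
    have e : z + 1 / 2 - 1 / 2 = z := by ring
    have h5 : (z + 1 / 2).re = 1 := by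
      have : (z + 1 / 2).re = z.re + 1 / 2 := by simp
      rw [this, he]
      norm_num
    have h4 := (zeta_XX (s := z + 1 / 2) (by rw [h5]; norm_num)).2 (by rw [e]; exact hz2)
    exact riemannZeta_ne_zero_of_one_le_re (by rw [h5]) h4
  obtain ⟨r, hr1, hr2⟩ : ∃ r : ℝ, r < 1 / 2 ∧ ∀ z ∈ K, z.re ≤ r := by
    rcases K.eq_empty_or_nonempty with he | hne
    · exact ⟨0, by norm_num, fun z hz => by rw [he] at hz; exact absurd hz (Set.notMem_empty z)⟩
    · obtain ⟨z0, hz0, hm⟩ := hK.exists_isMaxOn hne continuous_re.continuousOn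
      exact ⟨z0.re, hlt z0 hz0, fun z hz => hm hz⟩
  obtain ⟨q, hqd⟩ : ∃ q : ℝ, q = max r (b + (1 / 2 - b) / 2) := ⟨_, rfl⟩
  have hq1 : q < 1 / 2 := by rw [hqd]; exact max_lt hr1 (by linarith)
  have hq2 : r ≤ q := by rw [hqd]; exact le_max_left _ _
  have hq3 : b + (1 / 2 - b) / 2 ≤ q := by rw [hqd]; exact le_max_right _ _
  refine ⟨(1 / 2 + q + 1) / 2, by linarith, by linarith, fun s hs hz => ?_⟩
  have hX := (zeta_XX (by linarith)).1 hz
  have e2 : (s - 1 / 2).re = s.re - 1 / 2 := by simp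
  have e3 : (s - 1 / 2).im = s.im := by simp
  have h5 := Pool.Agent.H24R2.JP.Zer.re_le _ hX
  rw [e2] at h5
  by_cases h6 : |s.im| ≤ |T0|
  · have h7 := hr2 (s - 1 / 2) (by
      rw [hKd]
      refine ⟨⟨⟨?_, ?_⟩, ?_⟩, hX⟩
      · rw [e2]; linarith
      · rw [e2]; exact h5
      · change (s - 1 / 2 : ℂ).im ∈ Set.Icc (-|T0|) |T0|
        rw [e3, Set.mem_Icc, ← abs_le]
        exact h6)
    rw [e2] at h7
    linarith
  · push Not at h6
    have h7 := (le_abs_self T0).trans h6.le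
    rcases le_total 0 s.im with h8 | h8
    · rw [abs_of_nonneg h8] at h7
      have := h0 _ hX (by rw [e3]; exact h7)
      rw [e2] at this
      linarith
    · rw [abs_of_nonpos h8] at h7
      have := h0 (conj (s - 1 / 2)) (by rw [XX_c, hX, map_zero]) (by rw [conj_im, e3]; exact h7)
      rw [conj_re, e2] at this
      linarith

/-- **Main theorem.** Let `θ₁` and `θ₂` be different modulo `π`.  (1) For `0 < b < 1/2`: `limsup Re ρ ≤ 1/2 + b` for
the zeros of zeta if and only if the zeros of `A_{θ₁,b}` and of `A_{θ₂,b}` approach the critical line.  (2) If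
`limsup Re ρ ≤ 1/2 + b₀` and `b₀ < b < 1/2` then, for every `θ`, all but finitely many zeros of `A_{θ,b}` are simple
and on the critical line.  (3) Zeta has a zero-free half-plane `Re s ≥ σ₀`, `1/2 < σ₀ < 1`, if and only if there is
`b` with `0 < b < 1/2` such that all but finitely many zeros of `A_{θ₁,b}` and of `A_{θ₂,b}` are simple and on the
critical line. -/
theorem result (θ₁ θ₂ : ℝ) (hθ : Real.sin (θ₁ - θ₂) ≠ 0) :
    (∀ b : ℝ, 0 < b → b < 1 / 2 → (ZerosLeftOf b ↔ NearLine θ₁ b ∧ NearLine θ₂ b)) ∧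
    (∀ b₀ b : ℝ, 0 < b₀ → b₀ < b → b < 1 / 2 → ZerosLeftOf b₀ → ∀ θ : ℝ, AlmostAllOnLine θ b) ∧
    ((∃ σ₀ : ℝ, 1 / 2 < σ₀ ∧ σ₀ < 1 ∧ ∀ s : ℂ, σ₀ ≤ s.re → riemannZeta s ≠ 0) ↔
      ∃ b : ℝ, 0 < b ∧ b < 1 / 2 ∧ AlmostAllOnLine θ₁ b ∧ AlmostAllOnLine θ₂ b) := by
  refine ⟨fun b hb hb1 => near_iff hθ hb hb1, fun b₀ b hb0 hb hb1 h θ =>
    all_of_sz hb0.le hb hb1 ((sz_iff' hb0).1 h) θ, ?_, ?_⟩
  · rintro ⟨σ₀, h1, h2, h3⟩
    have hsz : ZerosLeftOf (σ₀ - 1 / 2) := by
      intro δ hδ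
      refine ⟨0, fun s hs _ => ?_⟩
      by_contra hcon
      push Not at hcon
      exact h3 s (by linarith) hs
    have hsz' := (sz_iff' (by linarith)).1 hsz
    refine ⟨σ₀ / 2, by linarith, by linarith, ?_, ?_⟩
    · exact all_of_sz (b₀ := σ₀ - 1 / 2) (by linarith) (by linarith) (by linarith) hsz' θ₁
    · exact all_of_sz (b₀ := σ₀ - 1 / 2) (by linarith) (by linarith) (by linarith) hsz' θ₂
  · rintro ⟨b, hb, hb1, h1, h2⟩
    exact half_of_sz hb hb1 ((sz_iff' hb).1 ((near_iff hθ hb hb1).2 ⟨near_of_all h1, near_of_all h2⟩))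

end Pool.Agent.Results.MP_5a4862_nt.SumAndDifferenceOfShifts
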